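import Mathlib

set_option autoImplicit false

namespace V11253.SC

open Classical Relation

/-- A graph in which multiple edges, loops and semi-edges are allowed, given by its edge-ends:
`vx` sends an edge-end to its vertex and `op` sends it to the other end of the same edge (to itself
for a semi-edge). -/
structure EG (V D : Type) where
  /-- the vertex of an edge-end -/
  vx : D → V
  /-- the other end of the same edge -/
  op : D → D
  op_op : ∀ d, op (op d) = d

variable {V D W E W' E' : Type}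

/-- Every vertex has exactly three edge-ends. -/
def EG.Cubic (G : EG V D) : Prop := ∀ u : V, Nat.card {d : D // G.vx d = u} = 3

/-- Any two vertices are joined by a walk, and there is a vertex. -/
def EG.Connected (G : EG V D) : Prop :=
  Nonempty V ∧ ∀ a b : V, ReflTransGen (fun p q => ∃ d, G.vx d = p ∧ G.vx (G.op d) = q) a b

/-- 3-edge-colourable. -/
def EG.Colourable (G : EG V D) : Prop :=
  ∃ c : D → Fin 3, (∀ d, c (G.op d) = c d) ∧ ∀ d e, G.vx d = G.vx e → c d = c e → d = e

/-- No loops, no semi-edges, no multiple edges. -/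
def EG.Simple (G : EG V D) : Prop :=
  (∀ d, G.vx (G.op d) ≠ G.vx d) ∧
  ∀ d e, G.vx d = G.vx e → G.vx (G.op d) = G.vx (G.op e) → d = e

/-- At least three vertices, connected, and still connected after deleting any one vertex. -/
def EG.TwoConnected (G : EG V D) : Prop :=
  3 ≤ Nat.card V ∧ G.Connected ∧ ∀ w a b : V, a ≠ w → b ≠ w →
    ReflTransGen (fun p q => q ≠ w ∧ ∃ d, G.vx d = p ∧ G.vx (G.op d) = q) a b

/-- `H` covers `G`. -/
def EG.Covers (H : EG W E) (G : EG V D) : Prop :=
  ∃ (f : W → V) (φ : E → D), (∀ e, G.vx (φ e) = f (H.vx e)) ∧ (∀ e, φ (H.op e) = G.op (φ e)) ∧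
    ∀ w, Set.BijOn φ {e | H.vx e = w} {d | G.vx d = f w}

lemma covers_trans {G : EG V D} {H : EG W E} {K : EG W' E'} (h1 : K.Covers H) (h2 : H.Covers G) :
    K.Covers G := by
  obtain ⟨f1, φ1, a1, b1, c1⟩ := h1
  obtain ⟨f2, φ2, a2, b2, c2⟩ := h2
  refine ⟨f2 ∘ f1, φ2 ∘ φ1, fun e => ?_, fun e => ?_, fun w => ?_⟩
  · simp [a2, a1]
  · simp [b2, b1]
  · exact (c2 (f1 w)).comp (c1 w)

/-- The permutation voltage cover. -/
def lift (G : EG V D) {J : Type} (σ : D → J → J) (hσ : ∀ d j, σ (G.op d) (σ d j) = j) :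
    EG (V × J) (D × J) where
  vx := fun p => (G.vx p.1, p.2)
  op := fun p => (G.op p.1, σ p.1 p.2)
  op_op := by
    rintro ⟨d, j⟩
    simp [G.op_op, hσ]

section
variable {J : Type} (G : EG V D) (σ : D → J → J) (hσ : ∀ d j, σ (G.op d) (σ d j) = j)

@[simp] lemma lift_vx (p : D × J) : (lift G σ hσ).vx p = (G.vx p.1, p.2) := rfl
@[simp] lemma lift_op (p : D × J) : (lift G σ hσ).op p = (G.op p.1, σ p.1 p.2) := rfl

lemma lift_covers : (lift G σ hσ).Covers G := by
  refine ⟨Prod.fst, Prod.fst, fun e => rfl, fun e => rfl, ?_⟩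
  rintro ⟨u, j⟩
  refine ⟨?_, ?_, ?_⟩
  · rintro ⟨d, i⟩ h
    simp only [lift_vx, Set.mem_ofPred_eq, Prod.mk.injEq] at h ⊢
    exact h.1
  · rintro ⟨d, i⟩ h ⟨d', i'⟩ h' hh
    simp only [lift_vx, Set.mem_ofPred_eq, Prod.mk.injEq] at h h' hh ⊢
    exact ⟨hh, h.2.trans h'.2.symm⟩
  · intro d hd
    refine ⟨(d, j), ?_, rfl⟩
    simp only [Set.mem_ofPred_eq] at hd
    simp [hd]
end

lemma covers_cubic {G : EG V D} {H : EG W E} (h : H.Covers G) (hG : G.Cubic) : H.Cubic := by
  obtain ⟨f, φ, a, b, c⟩ := h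
  intro w
  have := Set.BijOn.equiv φ (c w)
  rw [← hG (f w)]
  exact Nat.card_congr this

/-- leaving ends -/
def Lv (G : EG V D) (U : Set V) (d : D) : Prop := G.vx d ∈ U ∧ G.vx (G.op d) ∉ U

/-- no set with exactly one leaving end -/
def NoBridge (G : EG V D) : Prop := ¬ ∃ (U : Set V) (g : D), ∀ d, Lv G U d ↔ d = g

/-- cut version of connectedness -/
def Conn (G : EG V D) : Prop :=
  ∀ U : Set V, U.Nonempty → (∀ d, ¬ Lv G U d) → U = Set.univ

/-- colours as nonzero elements of the Klein group -/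
def ph : Fin 3 → ZMod 2 × ZMod 2 := ![(1, 0), (0, 1), (1, 1)]

lemma ph2 : ∀ a b : Fin 3, ph a + ph b = 0 → a = b := by decide
lemma ph3 : ∀ a b c : Fin 3, ph a + (ph b + ph c) = 0 → a ≠ b ∧ a ≠ c ∧ b ≠ c := by decide

lemma zz (x : ZMod 2 × ZMod 2) : x + x = 0 := by
  revert x; decide

lemma parity [Fintype D] [Fintype V] (G : EG V D) (hcub : G.Cubic) (hfp : ∀ d, G.op d ≠ d)
    (c : D → Fin 3) (hc1 : ∀ d, c (G.op d) = c d)
    (hc2 : ∀ d e, G.vx d = G.vx e → c d = c e → d = e) (U : Set V) :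
    ∑ d ∈ Finset.univ.filter (fun d => Lv G U d), ph (c d) = 0 := by
  have h1 : ∀ u : V, ∑ d ∈ Finset.univ.filter (fun d => G.vx d = u), ph (c d) = 0 := by
    intro u
    have hcard : (Finset.univ.filter (fun d => G.vx d = u)).card = 3 := by
      rw [← hcub u, Nat.card_eq_fintype_card, Fintype.card_subtype]
    have hinj : Set.InjOn c (Finset.univ.filter (fun d => G.vx d = u)) := by
      intro d hd e he h
      simp only [Finset.coe_filter, Finset.mem_univ, true_and, Set.mem_ofPred_eq] at hd he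
      exact hc2 d e (hd.trans he.symm) h
    rw [← Finset.sum_image (f := ph) (g := c) hinj]
    have himg : (Finset.univ.filter (fun d => G.vx d = u)).image c = Finset.univ := by
      apply Finset.eq_univ_of_card
      rw [Finset.card_image_of_injOn hinj, hcard]; rfl
    rw [himg]; decide
  have h2 : ∑ d ∈ Finset.univ.filter (fun d => G.vx d ∈ U), ph (c d) = 0 := by
    have : Finset.univ.filter (fun d => G.vx d ∈ U) =
        (Finset.univ.filter (fun u => u ∈ U)).biUnion
          (fun u => Finset.univ.filter (fun d => G.vx d = u)) := by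
      ext d; simp
    rw [this, Finset.sum_biUnion]
    · exact Finset.sum_eq_zero (fun u _ => h1 u)
    · intro u _ w _ huw
      rw [Function.onFun, Finset.disjoint_left]
      intro d hd hd'
      simp only [Finset.mem_filter, Finset.mem_univ, true_and] at hd hd'
      exact huw (hd.symm.trans hd')
  have h3 : ∑ d ∈ Finset.univ.filter (fun d => G.vx d ∈ U ∧ G.vx (G.op d) ∈ U), ph (c d) = 0 := by
    refine Finset.sum_involution (fun d _ => G.op d) ?_ ?_ ?_ ?_
    · intro d _; rw [hc1]; exact zz _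
    · intro d _ _; exact hfp d
    · intro d hd
      simp only [Finset.mem_filter, Finset.mem_univ, true_and] at hd ⊢
      exact ⟨hd.2, by rw [G.op_op]; exact hd.1⟩
    · intro d _; exact G.op_op d
  have h4 : Finset.univ.filter (fun d => G.vx d ∈ U) =
      Finset.univ.filter (fun d => G.vx d ∈ U ∧ G.vx (G.op d) ∈ U) ∪
      Finset.univ.filter (fun d => Lv G U d) := by
    ext d
    simp only [Finset.mem_filter, Finset.mem_univ, true_and, Finset.mem_union, Lv]
    tauto
  rw [h4, Finset.sum_union, h3, zero_add] at h2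
  · exact h2
  · rw [Finset.disjoint_left]
    intro d hd hd'
    simp only [Finset.mem_filter, Finset.mem_univ, true_and, Lv] at hd hd'
    exact hd'.2 hd.2

lemma parity2 [Fintype D] [Fintype V] (G : EG V D) (hcub : G.Cubic) (hfp : ∀ d, G.op d ≠ d)
    (c : D → Fin 3) (hc1 : ∀ d, c (G.op d) = c d)
    (hc2 : ∀ d e, G.vx d = G.vx e → c d = c e → d = e) (U : Set V) (x y : D) (hxy : x ≠ y)
    (h : ∀ d, Lv G U d ↔ d = x ∨ d = y) : c x = c y := by
  have := parity G hcub hfp c hc1 hc2 U
  have h' : Finset.univ.filter (fun d => Lv G U d) = {x, y} := by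
    ext d; simp [h]
  rw [h', Finset.sum_pair hxy] at this
  exact ph2 _ _ this

lemma parity3 [Fintype D] [Fintype V] (G : EG V D) (hcub : G.Cubic) (hfp : ∀ d, G.op d ≠ d)
    (c : D → Fin 3) (hc1 : ∀ d, c (G.op d) = c d)
    (hc2 : ∀ d e, G.vx d = G.vx e → c d = c e → d = e) (U : Set V) (x y z : D) (hxy : x ≠ y)
    (hxz : x ≠ z) (hyz : y ≠ z)
    (h : ∀ d, Lv G U d ↔ d = x ∨ d = y ∨ d = z) : c x ≠ c y ∧ c x ≠ c z ∧ c y ≠ c z := by
  have := parity G hcub hfp c hc1 hc2 U
  have h' : Finset.univ.filter (fun d => Lv G U d) = {x, y, z} := by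
    ext d; simp [h]
  rw [h', Finset.sum_insert (by simp [hxy, hxz]), Finset.sum_pair hyz] at this
  exact ph3 _ _ _ this

end V11253.SC
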