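import Pool.Agent.V11253.SC.Pet

set_option autoImplicit false

namespace V11253.SC

open Classical Relation

variable {V D : Type}

/-- the flip voltage -/
noncomputable def be (G : EG V D) (X : Set V) (par : V → D) (d : D) : Bool :=
  if G.vx d ∈ X ∨ G.vx (G.op d) ∈ X then false
  else decide ¬ (d = par (G.vx d) ∨ G.op d = par (G.vx (G.op d)))

lemma be_op (G : EG V D) (X : Set V) (par : V → D) (d : D) : be G X par (G.op d) = be G X par d := by
  unfold be
  rw [G.op_op]
  simp only [or_comm]

/-- the permutation voltages of the ten-fold cover -/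
noncomputable def sv (G : EG V D) (X : Set V) (par : V → D) (f d : D) (j : ZMod 5 × Bool) :
    ZMod 5 × Bool :=
  if d = f then (j.1 + kk j.2, j.2)
  else if d = G.op f then (j.1 - kk j.2, j.2)
  else (j.1, xor j.2 (be G X par d))

lemma sv_sv (G : EG V D) (X : Set V) (par : V → D) (f : D) (hf : G.op f ≠ f) (d : D)
    (j : ZMod 5 × Bool) : sv G X par f (G.op d) (sv G X par f d j) = j := by
  obtain ⟨i, e⟩ := j
  by_cases h1 : d = f
  · subst h1
    simp [sv, hf]
  · by_cases h2 : d = G.op f
    · subst h2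
      simp [sv, hf, G.op_op]
    · have h3 : G.op d ≠ f := fun h => h2 (by rw [← h, G.op_op])
      have h4 : G.op d ≠ G.op f := fun h => h1 (by rw [← G.op_op d, h, G.op_op])
      simp only [sv, h1, h2, h3, h4, if_false, be_op]
      simp

section
variable [Fintype V] [Fintype D] (G : EG V D) (hS : G.Simple) (hcub : G.Cubic) (hC : Conn G)
  (X : Set V) (b : D) (hb : ∀ d, Lv G X d ↔ d = b)
  (f : D) (hf1 : G.vx f = G.vx b) (hf2 : f ≠ b) (par : V → D)

include hS hcub hb hf1 hf2 in
lemma stage2_col (hσ : ∀ d j, sv G X par f (G.op d) (sv G X par f d j) = j) :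
    ¬ (lift G (sv G X par f) hσ).Colourable := by
  rintro ⟨c, h1, h2⟩
  have hcub' := covers_cubic (lift_covers G (sv G X par f) hσ) hcub
  have hfp' : ∀ p, (lift G (sv G X par f) hσ).op p ≠ p := by
    rintro ⟨d, j⟩ h
    simp only [lift_op, Prod.mk.injEq] at h
    exact hS.1 d (by rw [h.1])
  have hbL := (hb b).2 rfl
  have hfop : G.op f ≠ f := fun h => hS.1 f (by rw [h])
  have hfX : G.vx f ∈ X := by rw [hf1]; exact hbL.1
  have hfX' : G.vx (G.op f) ∈ X := by
    by_contra hcon
    exact hf2 ((hb f).1 ⟨hfX, hcon⟩)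
  have hfb : G.op f ≠ b := fun h => hS.1 f (by rw [h, hf1])
  have hbf : b ≠ f := fun h => hf2 h.symm
  have hbf' : b ≠ G.op f := fun h => hfb h.symm
  -- three ends leave each copy of `X`
  have k3 : ∀ (i : ZMod 5) (e : Bool), c (b, (i, e)) ≠ c (f, (i, e)) ∧
      c (b, (i, e)) ≠ c (G.op f, (i, e)) ∧ c (f, (i, e)) ≠ c (G.op f, (i, e)) := by
    intro i e
    refine parity3 _ hcub' hfp' c h1 h2 {p | p.1 ∈ X ∧ p.2 = (i, e)} _ _ _ ?_ ?_ ?_ ?_
    · intro h; exact hbf (Prod.mk.inj h).1
    · intro h; exact hbf' (Prod.mk.inj h).1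
    · intro h; exact hfop (Prod.mk.inj h).1.symm
    · rintro ⟨d, j⟩
      simp only [Lv, lift_vx, lift_op, Set.mem_ofPred_eq, Prod.mk.injEq]
      constructor
      · rintro ⟨⟨h3, rfl⟩, h4⟩
        by_cases e1 : d = b
        · exact Or.inl ⟨e1, rfl⟩
        by_cases e2 : d = f
        · exact Or.inr (Or.inl ⟨e2, rfl⟩)
        by_cases e3 : d = G.op f
        · exact Or.inr (Or.inr ⟨e3, rfl⟩)
        exfalso
        apply h4
        refine ⟨?_, ?_⟩
        · by_contra hcon
          exact e1 ((hb d).1 ⟨h3, hcon⟩)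
        · simp [sv, e2, e3, be, h3]
      · rintro (⟨rfl, rfl⟩ | ⟨rfl, rfl⟩ | ⟨rfl, rfl⟩)
        · exact ⟨⟨hbL.1, rfl⟩, fun h => hbL.2 h.1⟩
        · refine ⟨⟨hfX, rfl⟩, fun h => ?_⟩
          have h5 := h.2
          simp only [sv, if_true, Prod.mk.injEq, and_true] at h5
          exact kk_ne e (by simpa using h5)
        · refine ⟨⟨hfX', rfl⟩, fun h => ?_⟩
          have h5 := h.2
          simp only [sv, hfop, if_false, if_true, Prod.mk.injEq, and_true] at h5
          exact kk_ne e (by simpa using h5)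
  -- two ends leave each doubled copy of the complement
  have k2 : ∀ i : ZMod 5, c (G.op b, (i, false)) = c (G.op b, (i, true)) := by
    intro i
    refine parity2 _ hcub' hfp' c h1 h2 {p | p.1 ∉ X ∧ p.2.1 = i} _ _ ?_ ?_
    · intro h
      have := (Prod.mk.inj (Prod.mk.inj h).2).2
      exact absurd this (by decide)
    · rintro ⟨d, j⟩
      simp only [Lv, lift_vx, lift_op, Set.mem_ofPred_eq, Prod.mk.injEq]
      constructor
      · rintro ⟨⟨h3, h4⟩, h5⟩
        have e2 : d ≠ f := fun h => h3 (by rw [h]; exact hfX)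
        have e3 : d ≠ G.op f := fun h => h3 (by rw [h]; exact hfX')
        have h6 : G.vx (G.op d) ∈ X := by
          by_contra hcon
          apply h5
          refine ⟨hcon, ?_⟩
          simp only [sv, e2, e3, if_false]
          exact h4
        have h7 : G.op d = b := (hb _).1 ⟨h6, by rw [G.op_op]; exact h3⟩
        have h8 : d = G.op b := by rw [← h7, G.op_op]
        obtain ⟨i', e'⟩ := j
        simp only at h4
        subst h4
        cases e'
        · exact Or.inl ⟨h8, rfl⟩
        · exact Or.inr ⟨h8, rfl⟩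
      · rintro (⟨rfl, rfl⟩ | ⟨rfl, rfl⟩)
        · exact ⟨⟨hbL.2, rfl⟩, fun h => h.1 (by rw [G.op_op]; exact hbL.1)⟩
        · exact ⟨⟨hbL.2, rfl⟩, fun h => h.1 (by rw [G.op_op]; exact hbL.1)⟩
  have hbb : ∀ i e, c (G.op b, (i, e)) = c (b, (i, e)) := by
    intro i e
    have := h1 (b, (i, e))
    simpa [sv, hbf, hbf', be, hbL.1] using this
  have hff : ∀ i e, c (G.op f, (i + kk e, e)) = c (f, (i, e)) := by
    intro i e
    have := h1 (f, (i, e))
    simpa [sv] using this
  have hs : ∀ i, c (b, (i, false)) = c (b, (i, true)) := by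
    intro i
    rw [← hbb, ← hbb]; exact k2 i
  refine pet (fun i => c (b, (i, false))) (fun i => c (f, (i, false)))
    (fun i => c (f, (i, true))) ?_ ?_ ?_ ?_ ?_ ?_
  · intro i; exact (k3 i false).1
  · intro i
    have h3 := (k3 (i + 1) false).2.1
    have h4 := hff i false
    rw [show kk false = 1 from rfl] at h4
    rw [h4] at h3
    exact h3
  · intro i
    have h3 := (k3 (i + 1) false).2.2
    have h4 := hff i false
    rw [show kk false = 1 from rfl] at h4
    rw [h4] at h3
    exact h3
  · intro i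
    have h3 := (k3 i true).1
    rw [← hs i] at h3
    exact h3
  · intro i
    have h3 := (k3 (i + 2) true).2.1
    have h4 := hff i true
    rw [show kk true = 2 from rfl] at h4
    rw [h4, ← hs] at h3
    exact h3
  · intro i
    have h3 := (k3 (i + 2) true).2.2
    have h4 := hff i true
    rw [show kk true = 2 from rfl] at h4
    rw [h4] at h3
    exact h3

end

end V11253.SC
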