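import Pool.Agent.V11253.SC.Base

set_option autoImplicit false

namespace V11253.SC

open Classical Relation

variable {V D W E W' E' : Type}

/-- restriction to a closed set -/
def res (G : EG V D) (U : Set V) (hU : ∀ d, G.vx d ∈ U → G.vx (G.op d) ∈ U) :
    EG {u // u ∈ U} {d // G.vx d ∈ U} where
  vx := fun d => ⟨G.vx d.1, d.2⟩
  op := fun d => ⟨G.op d.1, hU d.1 d.2⟩
  op_op := by
    rintro ⟨d, hd⟩
    simp [G.op_op]

lemma res_covers (G : EG V D) (U : Set V) (hU : ∀ d, G.vx d ∈ U → G.vx (G.op d) ∈ U) :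
    (res G U hU).Covers G := by
  refine ⟨Subtype.val, Subtype.val, fun e => rfl, fun e => rfl, ?_⟩
  rintro ⟨u, hu⟩
  refine ⟨?_, ?_, ?_⟩
  · rintro ⟨d, hd⟩ h
    simp only [res, Set.mem_ofPred_eq, Subtype.mk.injEq] at h ⊢
    exact h
  · rintro ⟨d, hd⟩ _ ⟨e, he⟩ _ h
    exact Subtype.ext h
  · intro d hd
    simp only [Set.mem_ofPred_eq] at hd
    refine ⟨⟨d, by rw [hd]; exact hu⟩, ?_, rfl⟩
    simp only [res, Set.mem_ofPred_eq, Subtype.mk.injEq]
    exact hd

lemma res_simple (G : EG V D) (U : Set V) (hU : ∀ d, G.vx d ∈ U → G.vx (G.op d) ∈ U)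
    (h : G.Simple) : (res G U hU).Simple := by
  refine ⟨?_, ?_⟩
  · rintro ⟨d, hd⟩ h'
    simp only [res, Subtype.mk.injEq] at h'
    exact h.1 d h'
  · rintro ⟨d, hd⟩ ⟨e, he⟩ h1 h2
    simp only [res, Subtype.mk.injEq] at h1 h2 ⊢
    exact h.2 d e h1 h2

lemma res_noBridge (G : EG V D) (U : Set V) (hU : ∀ d, G.vx d ∈ U → G.vx (G.op d) ∈ U)
    (h : NoBridge G) : NoBridge (res G U hU) := by
  rintro ⟨T, g, hg⟩
  apply h
  refine ⟨Subtype.val '' T, g.1, ?_⟩
  intro d
  constructor
  · rintro ⟨⟨⟨u, hu⟩, hT, hu'⟩, h2⟩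
    have hd : G.vx d ∈ U := by rw [← hu']; exact hu
    have := (hg ⟨d, hd⟩).1 ⟨by simpa [res, ← hu'] using hT, ?_⟩
    · rw [← this]
    · intro h3
      exact h2 ⟨_, h3, rfl⟩
  · rintro rfl
    obtain ⟨h1, h2⟩ := (hg g).2 rfl
    refine ⟨⟨_, h1, rfl⟩, ?_⟩
    rintro ⟨u, hu, hu'⟩
    apply h2
    have : u = (res G U hU).vx ((res G U hU).op g) := Subtype.ext hu'
    rwa [← this]

lemma comp_step (G : EG V D) (U : Set V) (hU : ∀ d, G.vx d ∈ U → G.vx (G.op d) ∈ U)
    (hU' : ∀ d, G.vx d ∈ Uᶜ → G.vx (G.op d) ∈ Uᶜ)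
    (h1 : (res G U hU).Colourable) (h2 : (res G Uᶜ hU').Colourable) : G.Colourable := by
  obtain ⟨c1, a1, b1⟩ := h1
  obtain ⟨c2, a2, b2⟩ := h2
  refine ⟨fun d => if h : G.vx d ∈ U then c1 ⟨d, h⟩ else c2 ⟨d, h⟩, ?_, ?_⟩
  · intro d
    by_cases h : G.vx d ∈ U
    · have h' := hU d h
      simp only [h, h', dif_pos]
      exact a1 ⟨d, h⟩
    · have h' := hU' d h
      simp only [h, dif_neg, not_false_iff]
      rw [dif_neg h']
      exact a2 ⟨d, h⟩
  · intro d e hde hc
    by_cases h : G.vx d ∈ U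
    · have h' : G.vx e ∈ U := by rw [← hde]; exact h
      simp only [h, h', dif_pos] at hc
      have := b1 ⟨d, h⟩ ⟨e, h'⟩ (by simp [res, hde]) hc
      exact congrArg Subtype.val this
    · have h' : G.vx e ∉ U := by rw [← hde]; exact h
      simp only [h, h', dif_neg, not_false_iff] at hc
      have := b2 ⟨d, h⟩ ⟨e, h'⟩ (by simp [res, hde]) hc
      exact congrArg Subtype.val this

lemma comp (bl : Prop) (A : EG V D) : ∀ (n : ℕ) (W E : Type) (_ : Fintype W) (_ : Fintype E)
    (G : EG W E), Fintype.card W = n → G.Simple → ¬ G.Colourable → G.Covers A →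
    (bl → NoBridge G) → ∃ (W' E' : Type) (_ : Fintype W') (_ : Fintype E') (H : EG W' E'),
      H.Simple ∧ ¬ H.Colourable ∧ H.Covers A ∧ (bl → NoBridge H) ∧ Conn H := by
  intro n
  induction n using Nat.strong_induction_on with
  | _ n ih =>
    intro W E _ _ G hn hS hcol hcov hbl
    by_cases hC : Conn G
    · exact ⟨W, E, inferInstance, inferInstance, G, hS, hcol, hcov, hbl, hC⟩
    simp only [Conn, not_forall] at hC
    obtain ⟨U, hne, hno, huniv⟩ := hC
    have hU : ∀ d, G.vx d ∈ U → G.vx (G.op d) ∈ U := by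
      intro d hd
      by_contra hcon
      exact hno d ⟨hd, hcon⟩
    have hU' : ∀ d, G.vx d ∈ Uᶜ → G.vx (G.op d) ∈ Uᶜ := by
      intro d hd hcon
      apply hd
      have := hU _ hcon
      rwa [G.op_op] at this
    by_cases h1 : (res G U hU).Colourable
    · have h2 : ¬ (res G Uᶜ hU').Colourable := fun h2 => hcol (comp_step G U hU hU' h1 h2)
      obtain ⟨x, hx⟩ := hne
      exact ih _ (by
        rw [← hn]
        exact Fintype.card_subtype_lt (p := fun u => u ∈ Uᶜ) (x := x) (fun h => h hx)) _ _ inferInstance inferInstance _ rfl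
        (res_simple G _ hU' hS) h2 (covers_trans (res_covers G _ hU') hcov)
        (fun h => res_noBridge G _ hU' (hbl h))
    · obtain ⟨x, hx⟩ := (Set.ne_univ_iff_exists_notMem U).1 huniv
      exact ih _ (by
        rw [← hn]
        exact Fintype.card_subtype_lt (p := fun u => u ∈ U) (x := x) hx) _ _ inferInstance inferInstance _ rfl
        (res_simple G _ hU hS) h1 (covers_trans (res_covers G _ hU) hcov)
        (fun h => res_noBridge G _ hU (hbl h))

/-- from cuts to walks -/
lemma connected_of_conn [Nonempty V] (G : EG V D) (h : Conn G) : G.Connected := by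
  refine ⟨inferInstance, ?_⟩
  intro a b
  have := h {b | ReflTransGen (fun p q => ∃ d, G.vx d = p ∧ G.vx (G.op d) = q) a b}
    ⟨a, ReflTransGen.refl⟩ (by
      rintro d ⟨h1, h2⟩
      exact h2 (ReflTransGen.tail h1 ⟨d, rfl, rfl⟩))
  have hb : b ∈ {b | ReflTransGen (fun p q => ∃ d, G.vx d = p ∧ G.vx (G.op d) = q) a b} := by
    rw [this]; trivial
  exact hb

/-- A set with at most one leaving end is trivial. -/
lemma leave_two (G : EG V D) (h : Conn G) (hb : NoBridge G) (U : Set V) (hne : U.Nonempty)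
    (hU : U ≠ Set.univ) : ∃ d e, d ≠ e ∧ Lv G U d ∧ Lv G U e := by
  by_contra hcon
  push Not at hcon
  have : ∃ g, Lv G U g := by
    by_contra h2
    push Not at h2
    exact hU (h U hne h2)
  obtain ⟨g, hg⟩ := this
  apply hb
  refine ⟨U, g, fun d => ⟨fun hd => ?_, fun hd => hd ▸ hg⟩⟩
  by_contra hne
  exact hcon d g hne hd hg

lemma twoConn [Fintype V] [Fintype D] [Nonempty V] (G : EG V D) (hS : G.Simple) (hcub : G.Cubic)
    (h : Conn G) (hb : NoBridge G) : G.TwoConnected := by
  refine ⟨?_, connected_of_conn G h, ?_⟩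
  · -- three vertices
    obtain ⟨u⟩ := (inferInstance : Nonempty V)
    have h3 := hcub u
    rw [← h3]
    have hinj : Function.Injective (fun d : {d : D // G.vx d = u} => G.vx (G.op d.1)) := by
      rintro ⟨d, hd⟩ ⟨e, he⟩ h'
      exact Subtype.ext (hS.2 d e (hd.trans he.symm) h')
    exact Nat.card_le_card_of_injective _ hinj
  · intro w a b ha hbw
    by_contra hcon
    set R := fun p q => q ≠ w ∧ ∃ d, G.vx d = p ∧ G.vx (G.op d) = q with hR
    let C : Set V := {q | ReflTransGen R a q}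
    have hwC : w ∉ C := by
      intro hw
      rcases ReflTransGen.cases_tail hw with h1 | ⟨c, _, h2⟩
      · exact ha h1.symm
      · exact h2.1 rfl
    have hC : ∀ d, G.vx d ∈ C → G.vx (G.op d) ≠ w → G.vx (G.op d) ∈ C := by
      intro d hd hne
      exact ReflTransGen.tail hd ⟨hne, d, rfl, rfl⟩
    let C' : Set V := {q | q ≠ w ∧ q ∉ C}
    obtain ⟨d1, e1, n1, l1, m1⟩ := leave_two G h hb C ⟨a, ReflTransGen.refl⟩
      (fun hu => hwC (hu ▸ Set.mem_univ w))
    obtain ⟨d2, e2, n2, l2, m2⟩ := leave_two G h hb C' ⟨b, hbw, hcon⟩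
      (fun hu => (hu ▸ Set.mem_univ w : w ∈ C').1 rfl)
    have hl : ∀ d, Lv G C d → G.vx (G.op d) = w := by
      intro d hd
      by_contra hne
      exact hd.2 (hC d hd.1 hne)
    have hl' : ∀ d, Lv G C' d → G.vx (G.op d) = w := by
      intro d hd
      by_contra hne
      have h1 : G.vx (G.op d) ∈ C := by
        by_contra h1
        exact hd.2 ⟨hne, h1⟩
      have := hC (G.op d) h1 (by rw [G.op_op]; exact hd.1.1)
      rw [G.op_op] at this
      exact hd.1.2 this
    have hopinj : ∀ d e, G.op d = G.op e → d = e := by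
      intro d e hde
      rw [← G.op_op d, hde, G.op_op]
    have hdis : ∀ d e, Lv G C d → Lv G C' e → d ≠ e := by
      rintro d e hd he rfl
      exact he.1.2 hd.1
    have h3 := hcub w
    have hfin : ({G.op d1, G.op e1, G.op d2, G.op e2} : Finset D).card = 4 := by
      rw [Finset.card_insert_of_notMem, Finset.card_insert_of_notMem, Finset.card_pair]
      · exact fun h' => n2 (hopinj _ _ h')
      · simp only [Finset.mem_insert, Finset.mem_singleton, not_or]
        exact ⟨fun h' => hdis _ _ m1 l2 (hopinj _ _ h'), fun h' => hdis _ _ m1 m2 (hopinj _ _ h')⟩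
      · simp only [Finset.mem_insert, Finset.mem_singleton, not_or]
        exact ⟨fun h' => n1 (hopinj _ _ h'), fun h' => hdis _ _ l1 l2 (hopinj _ _ h'),
          fun h' => hdis _ _ l1 m2 (hopinj _ _ h')⟩
    have hsub : ({G.op d1, G.op e1, G.op d2, G.op e2} : Finset D) ⊆
        Finset.univ.filter (fun d => G.vx d = w) := by
      intro d hd
      simp only [Finset.mem_insert, Finset.mem_singleton] at hd
      simp only [Finset.mem_filter, Finset.mem_univ, true_and]
      rcases hd with rfl | rfl | rfl | rfl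
      · exact hl _ l1
      · exact hl _ m1
      · exact hl' _ l2
      · exact hl' _ m2
    have hle := Finset.card_le_card hsub
    rw [hfin, ← Fintype.card_subtype, ← Nat.card_eq_fintype_card, h3] at hle
    omega

end V11253.SC
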