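import Pool.Agent.V11253.SC.Base

set_option autoImplicit false

namespace V11253.SC

open Classical Relation

variable {V D W E W' E' : Type}

/-- Removing the semi-edges. -/
lemma stage0 [Fintype V] [Fintype D] (G : EG V D) (hcol : ¬ G.Colourable) :
    ∃ (W E : Type) (_ : Fintype W) (_ : Fintype E) (H : EG W E),
      (∀ d, H.op d ≠ d) ∧ ¬ H.Colourable ∧ H.Covers G := by
  let σ : D → Bool → Bool := fun d e => if G.op d = d then !e else e
  have hσ : ∀ d j, σ (G.op d) (σ d j) = j := by
    intro d j
    by_cases h : G.op d = d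
    · simp [σ, h]
    · have h' : ¬ (G.op (G.op d) = G.op d) := by rw [G.op_op]; exact fun h2 => h h2.symm
      simp [σ, h, h']
  refine ⟨V × Bool, D × Bool, inferInstance, inferInstance, lift G σ hσ, ?_, ?_,
    lift_covers G σ hσ⟩
  · rintro ⟨d, j⟩ h
    simp only [lift_op, Prod.mk.injEq] at h
    have := h.2
    simp [σ, h.1] at this
  · rintro ⟨c, h1, h2⟩
    apply hcol
    refine ⟨fun d => c (d, false), ?_, ?_⟩
    · intro d
      by_cases h : G.op d = d
      · simp only [h]
      · have := h1 (d, false)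
        simp only [lift_op, σ, h, if_false] at this
        exact this
    · intro d e hde hc
      have := h2 (d, false) (e, false) (by simp [hde]) hc
      exact (Prod.mk.inj this).1

section
variable (G : EG V D)

/-- voltages in `D → ZMod 3` -/
noncomputable def al (d : D) : D → ZMod 3 := Pi.single d 1 - Pi.single (G.op d) 1

lemma al_op (d : D) : al G (G.op d) = - al G d := by
  simp [al, G.op_op]

variable (hfp : ∀ d, G.op d ≠ d)
include hfp

lemma al_inj {d e : D} (h : al G d = al G e) : d = e := by
  by_contra hne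
  have := congrFun h d
  have h1 : al G d d = 1 := by
    simp [al, Pi.single_apply, (hfp d).symm]
  rw [h1] at this
  simp only [al, Pi.sub_apply, Pi.single_apply, hne, if_false] at this
  by_cases h2 : d = G.op e
  · rw [if_pos h2] at this; revert this; decide
  · rw [if_neg h2] at this; revert this; decide

lemma al_ne (d : D) : al G d ≠ 0 := by
  intro h
  have := congrFun h d
  simp [al, Pi.single_apply, (hfp d).symm] at this

omit hfp in
/-- the permutations of stage 1 -/
noncomputable def sg (G : EG V D) (d : D) : Option (D × (D → ZMod 3)) → Option (D × (D → ZMod 3))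
  | none => some (d, al G d)
  | some (k, γ) => if k = d ∧ γ = 0 then some (G.op d, 0)
      else if k = G.op d ∧ γ = al G (G.op d) then none else some (k, γ + al G d)

lemma sg_sg (d : D) (j : Option (D × (D → ZMod 3))) : sg G (G.op d) (sg G d j) = j := by
  rcases j with _ | ⟨k, γ⟩
  · simp [sg, G.op_op, (hfp d).symm]
  · by_cases h1 : k = d ∧ γ = 0
    · obtain ⟨rfl, rfl⟩ := h1
      simp [sg, G.op_op]
    · by_cases h2 : k = G.op d ∧ γ = al G (G.op d)
      · obtain ⟨rfl, rfl⟩ := h2
        simp [sg, hfp d]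
      · have e1 : sg G d (some (k, γ)) = some (k, γ + al G d) := by
          simp only [sg, if_neg h1, if_neg h2]
        rw [e1]
        have h3 : ¬ (k = G.op d ∧ γ + al G d = 0) := by
          rintro ⟨h3, h4⟩
          apply h2
          refine ⟨h3, ?_⟩
          rw [al_op]; exact eq_neg_of_add_eq_zero_left h4
        have h4 : ¬ (k = G.op (G.op d) ∧ γ + al G d = al G (G.op (G.op d))) := by
          rw [G.op_op]
          rintro ⟨h3, h4⟩
          exact h1 ⟨h3, by simpa using h4⟩
        simp only [sg, if_neg h3, if_neg h4]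
        rw [al_op]; simp

lemma sg_ne (d : D) (j) : sg G d j ≠ j := by
  rcases j with _ | ⟨k, γ⟩
  · simp [sg]
  · simp only [sg]
    split_ifs with h1 h2
    · obtain ⟨rfl, rfl⟩ := h1
      intro h
      simp only [Option.some.injEq, Prod.mk.injEq, and_true] at h
      exact hfp _ h
    · simp
    · intro h
      simp only [Option.some.injEq, Prod.mk.injEq, true_and, add_eq_left] at h
      exact al_ne G hfp d h

lemma sg_cases (d k : D) (γ : D → ZMod 3) :
    (k = d ∧ γ = 0 ∧ sg G d (some (k, γ)) = some (G.op d, 0)) ∨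
    (k = G.op d ∧ γ = al G (G.op d) ∧ sg G d (some (k, γ)) = none) ∨
    (¬ (k = d ∧ γ = 0) ∧ ¬ (k = G.op d ∧ γ = al G (G.op d)) ∧
      sg G d (some (k, γ)) = some (k, γ + al G d)) := by
  by_cases h1 : k = d ∧ γ = 0
  · left; refine ⟨h1.1, h1.2, ?_⟩; simp only [sg, if_pos h1]
  · by_cases h2 : k = G.op d ∧ γ = al G (G.op d)
    · right; left; refine ⟨h2.1, h2.2, ?_⟩; simp only [sg, if_neg h1, if_pos h2]
    · right; right; refine ⟨h1, h2, ?_⟩; simp only [sg, if_neg h1, if_neg h2]

lemma sg_inj {d e : D} {j} (h : sg G d j = sg G e j) : d = e := by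
  rcases j with _ | ⟨k, γ⟩
  · simp only [sg, Option.some.injEq, Prod.mk.injEq] at h
    exact h.1
  · rcases sg_cases G hfp d k γ with ⟨a1, a2, a3⟩ | ⟨a1, a2, a3⟩ | ⟨a1, a2, a3⟩ <;>
    rcases sg_cases G hfp e k γ with ⟨b1, b2, b3⟩ | ⟨b1, b2, b3⟩ | ⟨b1, b2, b3⟩ <;>
    rw [a3, b3] at h
    · exact a1.symm.trans b1
    · exact absurd h (by simp)
    · have h' := (Prod.mk.inj (Option.some.inj h)).1
      exact absurd (h'.trans a1) (hfp d)
    · exact absurd h (by simp)
    · rw [← G.op_op d, ← G.op_op e, ← a1, ← b1]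
    · exact absurd h (by simp)
    · have h' := (Prod.mk.inj (Option.some.inj h)).1
      exact absurd (h'.symm.trans b1) (hfp e)
    · exact absurd h (by simp)
    · have h' := (Prod.mk.inj (Option.some.inj h)).2
      exact al_inj G hfp (add_left_cancel h')

end

/-- Simple uncolourable cover. -/
lemma stage1 [Fintype V] [Fintype D] (G : EG V D) (hfp : ∀ d, G.op d ≠ d) (hcub : G.Cubic)
    (hcol : ¬ G.Colourable) :
    ∃ (W E : Type) (_ : Fintype W) (_ : Fintype E) (H : EG W E),
      H.Simple ∧ ¬ H.Colourable ∧ H.Covers G := by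
  have hS := sg_sg G hfp
  refine ⟨V × Option (D × (D → ZMod 3)), D × Option (D × (D → ZMod 3)), inferInstance,
    inferInstance, lift G (sg G) hS, ⟨?_, ?_⟩, ?_, lift_covers G _ hS⟩
  · rintro ⟨d, j⟩ h
    simp only [lift_op, lift_vx, Prod.mk.injEq] at h
    exact sg_ne G hfp d j h.2
  · rintro ⟨d, j⟩ ⟨e, i⟩ h1 h2
    simp only [lift_op, lift_vx, Prod.mk.injEq] at h1 h2 ⊢
    obtain ⟨h1, rfl⟩ := h1
    exact ⟨sg_inj G hfp h2.2, rfl⟩
  · rintro ⟨c, h1, h2⟩
    have hcub' := covers_cubic (lift_covers G (sg G) hS) hcub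
    have hfp' : ∀ p, (lift G (sg G) hS).op p ≠ p := by
      rintro ⟨d, j⟩ h
      simp only [lift_op, Prod.mk.injEq] at h
      exact hfp d h.1
    have key : ∀ d : D, c (d, some (d, 0)) = c (G.op d, some (d, al G d)) := by
      intro d
      refine parity2 _ hcub' hfp' c h1 h2 {p | ∃ γ, p.2 = some (d, γ)} _ _ ?_ ?_
      · intro h
        exact hfp d (Prod.mk.inj h).1.symm
      · rintro ⟨e, j⟩
        simp only [Lv, lift_vx, lift_op, Set.mem_ofPred_eq, Prod.mk.injEq]
        constructor
        · rintro ⟨⟨γ, rfl⟩, h4⟩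
          rcases sg_cases G hfp e d γ with ⟨a1, a2, a3⟩ | ⟨a1, a2, a3⟩ | ⟨a1, a2, a3⟩
          · left; exact ⟨a1.symm, by rw [a2]⟩
          · right
            have : e = G.op d := by rw [a1, G.op_op]
            exact ⟨this, by rw [a2, this, G.op_op]⟩
          · exact absurd ⟨_, a3⟩ h4
        · rintro (⟨rfl, rfl⟩ | ⟨rfl, rfl⟩)
          · refine ⟨⟨_, rfl⟩, ?_⟩
            rintro ⟨γ, h⟩
            simp only [sg, and_self, if_true, Option.some.injEq, Prod.mk.injEq] at h
            exact hfp _ h.1
          · refine ⟨⟨_, rfl⟩, ?_⟩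
            rintro ⟨γ, h⟩
            have h5 : ¬ (d = G.op d ∧ al G d = 0) := fun h5 => hfp d h5.1.symm
            simp [sg, G.op_op, (hfp d).symm] at h
    apply hcol
    refine ⟨fun d => c (d, none), ?_, ?_⟩
    · intro d
      have e1 : c (G.op d, some (d, al G d)) = c (d, none) := h1 (d, none)
      have e2 : c (G.op d, some (G.op d, 0)) = c (d, some (d, 0)) := by
        have := h1 (d, some (d, 0))
        simpa [sg] using this
      have e3 : c (d, some (G.op d, al G (G.op d))) = c (G.op d, none) := by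
        have := h1 (G.op d, none)
        simpa [sg, G.op_op] using this
      have k1 := key d
      have k2 := key (G.op d)
      rw [G.op_op] at k2
      show c (G.op d, none) = c (d, none)
      rw [← e3, ← k2, e2, k1, e1]
    · intro d e hde hc
      have := h2 (d, none) (e, none) (by simp [hde]) hc
      exact (Prod.mk.inj this).1

end V11253.SC
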