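import Pool.Agent.V11253.SC.NoB
import Pool.Agent.V11253.SC.Comp
import Pool.Agent.V11253.SC.Simp

set_option autoImplicit false

namespace V11253.SC

open Classical Relation

variable {V D : Type}

lemma lift_simple (G : EG V D) (hS : G.Simple) {J : Type} (σ : D → J → J)
    (hσ : ∀ d j, σ (G.op d) (σ d j) = j) : (lift G σ hσ).Simple := by
  refine ⟨?_, ?_⟩
  · rintro ⟨d, j⟩ h
    simp only [lift_vx, lift_op, Prod.mk.injEq] at h
    exact hS.1 d h.1
  · rintro ⟨d, j⟩ ⟨e, i⟩ h1 h2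
    simp only [lift_vx, lift_op, Prod.mk.injEq] at h1 h2 ⊢
    exact ⟨hS.2 d e h1.1 h2.1, h1.2⟩

lemma stage2 [Fintype V] [Fintype D] (G : EG V D) (hS : G.Simple) (hcub : G.Cubic) (hC : Conn G)
    (hnb : ¬ NoBridge G) :
    ∃ (W E : Type) (_ : Fintype W) (_ : Fintype E) (H : EG W E),
      H.Simple ∧ ¬ H.Colourable ∧ H.Covers G ∧ NoBridge H := by
  simp only [NoBridge, not_not] at hnb
  obtain ⟨U, gU, hU⟩ := hnb
  obtain ⟨X, ⟨b, hb⟩, hmin⟩ := Set.exists_min_image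
    {S : Set V | ∃ g, ∀ d, Lv G S d ↔ d = g} (fun S => S.ncard) (Set.toFinite _) ⟨U, gU, hU⟩
  have hmin' : ∀ (S : Set V) (g : D), (∀ d, Lv G S d ↔ d = g) → X.ncard ≤ S.ncard :=
    fun S g h => hmin S ⟨g, h⟩
  have : ∃ f, G.vx f = G.vx b ∧ f ≠ b := by
    by_contra hcon
    push Not at hcon
    have hc := hcub (G.vx b)
    have : Nat.card {d // G.vx d = G.vx b} ≤ 1 := by
      rw [Nat.card_eq_fintype_card]
      apply Fintype.card_le_one_iff.2
      rintro ⟨a, ha⟩ ⟨b, hb⟩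
      exact Subtype.ext ((hcon a ha).trans (hcon b hb).symm)
    omega
  obtain ⟨f, hf1, hf2⟩ := this
  haveI : Nonempty D := ⟨b⟩
  obtain ⟨par, ρ, hpar⟩ := exists_par G hC (G.vx b)
  have hfop : G.op f ≠ f := fun h => hS.1 f (by rw [h])
  have hσ := sv_sv G X par f hfop
  exact ⟨V × (ZMod 5 × Bool), D × (ZMod 5 × Bool), inferInstance, inferInstance,
    lift G (sv G X par f) hσ, lift_simple G hS _ hσ,
    stage2_col G hS hcub X b hb f hf1 hf2 par hσ, lift_covers G _ hσ,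
    stage2_nb G hS hcub hC X b hb hmin' f hf1 hf2 par ρ hpar hσ⟩

theorem main [Fintype V] [Fintype D] (A : EG V D) (hcub : A.Cubic) (hcol : ¬ A.Colourable) :
    ∃ (W E : Type) (_ : Fintype W) (_ : Fintype E) (H : EG W E),
      H.Simple ∧ H.Cubic ∧ H.TwoConnected ∧ ¬ H.Colourable ∧ H.Covers A := by
  obtain ⟨W0, E0, _, _, G0, a0, b0, c0⟩ := stage0 A hcol
  obtain ⟨W1, E1, _, _, G1, a1, b1, c1⟩ := stage1 G0 a0 (covers_cubic c0 hcub) b0
  obtain ⟨W2, E2, _, _, G2, a2, b2, c2, d2, e2⟩ := comp False A _ W1 E1 inferInstance inferInstance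
    G1 rfl a1 b1 (covers_trans c1 c0) (fun h => h.elim)
  obtain ⟨W3, E3, _, _, G3, a3, b3, c3, d3⟩ : ∃ (W E : Type) (_ : Fintype W) (_ : Fintype E)
      (H : EG W E), H.Simple ∧ ¬ H.Colourable ∧ H.Covers A ∧ NoBridge H := by
    by_cases h : NoBridge G2
    · exact ⟨W2, E2, inferInstance, inferInstance, G2, a2, b2, c2, h⟩
    · obtain ⟨W, E, i1, i2, H, p1, p2, p3, p4⟩ := stage2 G2 a2 (covers_cubic c2 hcub) e2 h
      exact ⟨W, E, i1, i2, H, p1, p2, covers_trans p3 c2, p4⟩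
  obtain ⟨W4, E4, _, _, G4, a4, b4, c4, d4, e4⟩ := comp True A _ W3 E3 inferInstance inferInstance
    G3 rfl a3 b3 c3 (fun _ => d3)
  have hne : Nonempty W4 := by
    by_contra hcon
    apply b4
    refine ⟨fun _ => 0, fun _ => rfl, fun d => ?_⟩
    exact absurd ⟨G4.vx d⟩ hcon
  exact ⟨W4, E4, inferInstance, inferInstance, G4, a4, covers_cubic c4 hcub,
    twoConn G4 a4 (covers_cubic c4 hcub) e4 (d4 trivial), b4, c4⟩

end V11253.SC
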