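import Pool.Agent.V11253.SC.Brg

set_option autoImplicit false

namespace V11253.SC

open Classical Relation

variable {V D : Type}

section
variable [Fintype V] [Fintype D] (G : EG V D) (hS : G.Simple) (hcub : G.Cubic) (hC : Conn G)
  (X : Set V) (b : D) (hb : ∀ d, Lv G X d ↔ d = b)
  (hmin : ∀ (S : Set V) (g : D), (∀ d, Lv G S d ↔ d = g) → X.ncard ≤ S.ncard)
  (f : D) (hf1 : G.vx f = G.vx b) (hf2 : f ≠ b) (par : V → D) (ρ : V → ℕ)
  (hpar : ∀ u, u ≠ G.vx b → G.vx (par u) = u ∧ ρ (G.vx (G.op (par u))) < ρ u)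

include hC hmin in
/-- A subset of `X` with at most one leaving end, and missing a point of `X`, is empty. -/
lemma small (T : Set V) (hT : T ⊆ X) (x : V) (hx : x ∈ X) (hxT : x ∉ T) (g : D)
    (h : ∀ d, Lv G T d → d = g) : T = ∅ := by
  by_contra hne
  have h1 := one_leave G hC T (Set.nonempty_iff_ne_empty.2 hne)
    (fun hu => hxT (hu ▸ Set.mem_univ x)) g h
  have h2 := hmin T g h1
  have h3 : T.ncard < X.ncard := Set.ncard_lt_ncard ⟨hT, fun h => hxT (h hx)⟩ (Set.toFinite _)
  omega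

include hS hcub hC hb hmin hf1 hf2 hpar in
lemma stage2_nb (hσ : ∀ d j, sv G X par f (G.op d) (sv G X par f d j) = j) :
    NoBridge (lift G (sv G X par f) hσ) := by
  rintro ⟨U, ⟨g, j0⟩, hU⟩
  have hbL := (hb b).2 rfl
  have hfop : G.op f ≠ f := fun h => hS.1 f (by rw [h])
  have hfX : G.vx f ∈ X := by rw [hf1]; exact hbL.1
  have hfX' : G.vx (G.op f) ∈ X := by
    by_contra hcon
    exact hf2 ((hb f).1 ⟨hfX, hcon⟩)
  have hopne : ∀ d, G.op d ≠ d := fun d h => hS.1 d (by rw [h])
  have hopinj : ∀ d e, G.op d = G.op e → d = e := by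
    intro d e hde
    rw [← G.op_op d, hde, G.op_op]
  set σ := sv G X par f with hσdef
  let P : V → ZMod 5 × Bool → Prop := fun u j => (u, j) ∈ U
  have hLU : ∀ d j, (P (G.vx d) j ∧ ¬ P (G.vx (G.op d)) (σ d j)) ↔ (d = g ∧ j = j0) := by
    intro d j
    have := hU (d, j)
    simp only [Lv, lift_vx, lift_op, Prod.mk.injEq] at this
    exact this
  have E : ∀ d, d ≠ g → d ≠ G.op g → ∀ j, (P (G.vx d) j ↔ P (G.vx (G.op d)) (σ d j)) := by
    intro d h1 h2 j
    constructor
    · intro h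
      by_contra hcon
      exact h1 ((hLU d j).1 ⟨h, hcon⟩).1
    · intro h
      by_contra hcon
      have := (hLU (G.op d) (σ d j)).1 ⟨h, by rw [G.op_op, hσ]; exact hcon⟩
      exact h2 (by rw [← this.1, G.op_op])
  have Eg : ∀ j, ((P (G.vx g) j ↔ P (G.vx (G.op g)) (σ g j)) ↔ j ≠ j0) := by
    intro j
    have h1 := hLU g j
    have h2 := hLU (G.op g) (σ g j)
    rw [G.op_op, hσ] at h2
    have h3 : ¬ (P (G.vx (G.op g)) (σ g j) ∧ ¬ P (G.vx g) j) := fun h => hopne g (h2.1 h).1
    simp only [true_and] at h1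
    tauto
  -- sizes
  let m : V → ℕ := fun u => (Finset.univ.filter (fun j => P u j)).card
  have hσinj : ∀ d, Function.Injective (σ d) := by
    intro d i j h
    rw [← hσ d i, h, hσ]
  have hσsurj : ∀ d, Function.Surjective (σ d) := fun d =>
    Finite.injective_iff_surjective.1 (hσinj d)
  have hm1 : ∀ d, d ≠ g → d ≠ G.op g → m (G.vx d) = m (G.vx (G.op d)) := by
    intro d h1 h2
    refine Finset.card_bij (fun j _ => σ d j) ?_ ?_ ?_
    · intro j hj
      simp only [Finset.mem_filter, Finset.mem_univ, true_and] at hj ⊢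
      exact (E d h1 h2 j).1 hj
    · intro i _ j _ h
      exact hσinj d h
    · intro j hj
      obtain ⟨i, rfl⟩ := hσsurj d j
      simp only [Finset.mem_filter, Finset.mem_univ, true_and] at hj
      exact ⟨i, by simpa using (E d h1 h2 i).2 hj, rfl⟩
  have hm2 : m (G.vx (G.op g)) < m (G.vx g) := by
    have h1 : (Finset.univ.filter (fun j => P (G.vx (G.op g)) j)).card ≤
        ((Finset.univ.filter (fun j => P (G.vx g) j)).erase j0).card := by
      refine Finset.card_le_card_of_injOn (fun j => σ (G.op g) j) ?_ ?_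
      · intro j hj
        obtain ⟨i, rfl⟩ := hσsurj g j
        simp only [Finset.coe_filter, Finset.mem_univ, true_and, Set.mem_ofPred_eq] at hj
        simp only [hσ, Finset.coe_erase, Finset.coe_filter, Finset.mem_univ, true_and]
        have h3 := (hLU g j0).2 ⟨rfl, rfl⟩
        have hne : i ≠ j0 := by
          rintro rfl
          exact h3.2 hj
        exact ⟨((Eg i).2 hne).2 hj, hne⟩
      · intro i _ j _ h
        exact hσinj _ h
    have h3 := (hLU g j0).2 ⟨rfl, rfl⟩
    have h4 : ((Finset.univ.filter (fun j => P (G.vx g) j)).erase j0).card <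
        (Finset.univ.filter (fun j => P (G.vx g) j)).card :=
      Finset.card_erase_lt_of_mem (by simpa using h3.1)
    exact lt_of_le_of_lt h1 h4
  let S : Set V := {u | m (G.vx (G.op g)) < m u}
  have hSg : ∀ d, Lv G S d ↔ d = g := by
    intro d
    constructor
    · rintro ⟨h1, h2⟩
      simp only [S, Set.mem_ofPred_eq] at h1 h2
      by_contra h3
      have h4 : d ≠ G.op g := by
        rintro rfl
        exact lt_irrefl _ h1
      have := hm1 d h3 h4
      exact h2 (by rw [← this]; exact h1)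
    · rintro rfl
      refine ⟨?_, ?_⟩
      · simp only [S, Set.mem_ofPred_eq]; exact hm2
      · simp only [S, Set.mem_ofPred_eq]; exact lt_irrefl _
  have hSg' : ∀ d, Lv G Sᶜ d ↔ d = G.op g := by
    intro d
    rw [show d = G.op g ↔ G.op d = g from
      ⟨fun h => by rw [h, G.op_op], fun h => by rw [← h, G.op_op]⟩, ← hSg]
    simp only [Lv, Set.mem_compl_iff, not_not, G.op_op]
    tauto
  -- `X` lies on one side
  have hside : X ⊆ S ∨ X ⊆ Sᶜ := by
    by_contra hcon
    push Not at hcon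
    obtain ⟨n1, n2⟩ := hcon
    rw [Set.not_subset] at n1 n2
    obtain ⟨u1, hu1, hu1'⟩ := n1
    obtain ⟨u2, hu2, hu2'⟩ := n2
    rw [Set.mem_compl_iff, not_not] at hu2'
    by_cases hbS : G.vx b ∈ S
    · have := small G hC X hmin (X \ S) Set.sdiff_subset u2 hu2 (fun h => h.2 hu2') (G.op g) (by
        intro d hd
        apply (hSg' d).1
        refine ⟨hd.1.2, fun h => ?_⟩
        have h3 : G.vx (G.op d) ∉ X := fun h3 => hd.2 ⟨h3, h⟩
        have := (hb d).1 ⟨hd.1.1, h3⟩
        exact hd.1.2 (by rw [this]; exact hbS))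
      have h4 : u1 ∈ X \ S := ⟨hu1, hu1'⟩
      rw [this] at h4
      exact h4
    · have := small G hC X hmin (X ∩ S) Set.inter_subset_left u1 hu1 (fun h => hu1' h.2) g (by
        intro d hd
        apply (hSg d).1
        refine ⟨hd.1.2, fun h => ?_⟩
        have h3 : G.vx (G.op d) ∉ X := fun h3 => hd.2 ⟨h3, h⟩
        have := (hb d).1 ⟨hd.1.1, h3⟩
        exact hbS (by rw [← this]; exact hd.1.2))
      have h4 : u2 ∈ X ∩ S := ⟨hu2, hu2'⟩
      rw [this] at h4
      exact h4
  -- orientation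
  obtain ⟨W, g', j1, hW, hW', hXW, E', Eg'⟩ : ∃ (W : Set V) (g' : D) (j1 : ZMod 5 × Bool),
      (∀ d, Lv G W d ↔ d = g') ∧ (∀ d, Lv G Wᶜ d ↔ d = G.op g') ∧ X ⊆ W ∧
      (∀ d, d ≠ g' → d ≠ G.op g' → ∀ j, (P (G.vx d) j ↔ P (G.vx (G.op d)) (σ d j))) ∧
      (∀ j, ((P (G.vx g') j ↔ P (G.vx (G.op g')) (σ g' j)) ↔ j ≠ j1)) := by
    rcases hside with h | h
    · exact ⟨S, g, j0, hSg, hSg', h, E, Eg⟩
    · refine ⟨Sᶜ, G.op g, σ g j0, hSg', ?_, h, ?_, ?_⟩
      · rw [compl_compl, G.op_op]; exact hSg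
      · rw [G.op_op]; exact fun d h1 h2 => E d h2 h1
      · intro j
        obtain ⟨i, rfl⟩ := hσsurj g j
        rw [G.op_op, hσ]
        have := Eg i
        rw [show (σ g i ≠ σ g j0) ↔ i ≠ j0 from (hσinj g).ne_iff, ← this]
        exact ⟨fun h => h.symm, fun h => h.symm⟩
  have hg'W := (hW g').2 rfl
  have hint : ∀ d, G.vx d ∈ W → G.vx (G.op d) ∈ W → d ≠ g' ∧ d ≠ G.op g' := by
    intro d h1 h2
    refine ⟨?_, ?_⟩
    · rintro rfl; exact hg'W.2 h2
    · rintro rfl; exact hg'W.2 h1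
  -- constant on `X`
  have hconst : ∀ u ∈ X, ∀ j, (P u j ↔ P (G.vx b) j) := by
    have := small G hC X hmin {u | u ∈ X ∧ ¬ ∀ j, (P u j ↔ P (G.vx b) j)} (fun u hu => hu.1)
      (G.vx b) hbL.1 (fun h => h.2 (fun j => Iff.rfl)) (G.op f) (by
        rintro d ⟨⟨h1, h2⟩, h3⟩
        have h4 : d ≠ b := by
          rintro rfl
          exact h2 (fun j => Iff.rfl)
        have h5 : G.vx (G.op d) ∈ X := by
          by_contra hcon
          exact h4 ((hb d).1 ⟨h1, hcon⟩)
        have h6 : ∀ j, (P (G.vx (G.op d)) j ↔ P (G.vx b) j) := by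
          by_contra hcon
          exact h3 ⟨h5, hcon⟩
        by_contra h7
        have h8 : d ≠ f := by
          rintro rfl
          apply h2
          rw [hf1]
          exact fun j => Iff.rfl
        obtain ⟨h9, h10⟩ := hint d (hXW h1) (hXW h5)
        apply h2
        intro j
        rw [E' d h9 h10 j, h6]
        simp [hσdef, sv, h8, h7, be, h1])
    intro u hu
    by_contra hcon
    have h4 : u ∈ {u | u ∈ X ∧ ¬ ∀ j, (P u j ↔ P (G.vx b) j)} := ⟨hu, hcon⟩
    rw [this] at h4
    exact h4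
  -- shift invariance at `X`
  have hshX : ∀ u ∈ X, ∀ i e, (P u (i, e) ↔ P u (i + 1, e)) := by
    have h1 : ∀ i e, (P (G.vx b) (i, e) ↔ P (G.vx b) (i + kk e, e)) := by
      intro i e
      obtain ⟨h9, h10⟩ := hint f (hXW hfX) (hXW hfX')
      have h2 := E' f h9 h10 (i, e)
      rw [hconst _ hfX, hconst _ hfX'] at h2
      simpa [hσdef, sv] using h2
    intro u hu i e
    rw [hconst u hu, hconst u hu]
    cases e
    · exact h1 i false
    · have h2 := h1 i true
      have h3 := h1 (i + kk true) true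
      have h4 := h1 (i + kk true + kk true) true
      have h5 : i + kk true + kk true + kk true = i + 1 := by
        rw [show kk true = 2 from rfl, add_assoc, add_assoc]
        congr 1
      rw [h2, h3, h4, h5]
  -- shift invariance on `W`
  have hshW : ∀ u ∈ W, ∀ i e, (P u (i, e) ↔ P u (i + 1, e)) := by
    have := side_conn G hC W g' hW {u | u ∈ W ∧ ∀ i e, (P u (i, e) ↔ P u (i + 1, e))}
      (fun u hu => hu.1) ⟨G.vx b, hXW hbL.1, hshX _ hbL.1⟩ (by
        rintro d ⟨h1, h2⟩ h3
        refine ⟨h3, ?_⟩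
        obtain ⟨h9, h10⟩ := hint d h1 h3
        by_cases h4 : d = f
        · rw [h4]; exact hshX _ hfX'
        by_cases h5 : d = G.op f
        · rw [h5, G.op_op]; exact hshX _ hfX
        intro i e
        have h6 := E' d h9 h10 (i, xor e (be G X par d))
        have h7 := E' d h9 h10 (i + 1, xor e (be G X par d))
        have h8 := h2 i (xor e (be G X par d))
        simp only [hσdef, sv, h4, h5, if_false, Bool.xor_assoc, Bool.xor_self, Bool.xor_false]
          at h6 h7
        rw [← h6, ← h7, h8])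
    intro u hu
    have h4 : u ∈ {u | u ∈ W ∧ ∀ i e, (P u (i, e) ↔ P u (i + 1, e))} := by rw [this]; exact hu
    exact h4.2
  -- flip invariance on the other side
  have hxZ : G.vx b ∉ Wᶜ := fun h => h (hXW hbL.1)
  have hZX : ∀ u ∈ Wᶜ, u ∉ X := fun u hu h => hu (hXW h)
  have hint' : ∀ d, G.vx d ∈ Wᶜ → G.vx (G.op d) ∈ Wᶜ → d ≠ g' ∧ d ≠ G.op g' := by
    intro d h1 h2
    refine ⟨?_, ?_⟩
    · rintro rfl; exact h1 hg'W.1
    · rintro rfl; rw [G.op_op] at h2; exact h2 hg'W.1
  have hact : ∀ d, G.vx d ∈ Wᶜ → G.vx (G.op d) ∈ Wᶜ → ∀ i e, (P (G.vx d) (i, e) ↔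
      P (G.vx (G.op d)) (i, xor e (decide ¬ (d = par (G.vx d) ∨ G.op d = par (G.vx (G.op d)))))) := by
    intro d h1 h2 i e
    obtain ⟨h9, h10⟩ := hint' d h1 h2
    have h4 : d ≠ f := by rintro rfl; exact hZX _ h1 hfX
    have h5 : d ≠ G.op f := by rintro rfl; exact hZX _ h1 hfX'
    have h6 := E' d h9 h10 (i, e)
    have h7 : ¬ (G.vx d ∈ X ∨ G.vx (G.op d) ∈ X) := by
      rintro (h | h)
      · exact hZX _ h1 h
      · exact hZX _ h2 h
    simp only [hσdef, sv, h4, h5, if_false, be, h7] at h6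
    exact h6
  have hflip : ∀ u ∈ Wᶜ, ∀ i, (P u (i, false) ↔ P u (i, true)) := by
    intro u hu i
    by_contra hcon
    have hT : {u | u ∈ Wᶜ ∧ ¬ (P u (i, false) ↔ P u (i, true))} = Wᶜ :=
      side_conn G hC Wᶜ (G.op g') hW' _ (fun u hu => hu.1) ⟨u, hu, hcon⟩ (by
        rintro d ⟨h1, h2⟩ h3
        refine ⟨h3, fun h4 => h2 ?_⟩
        rw [hact d h1 h3 i false, hact d h1 h3 i true]
        cases (decide ¬ (d = par (G.vx d) ∨ G.op d = par (G.vx (G.op d))))
        · simpa using h4
        · simpa using h4.symm)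
    have hall : ∀ u ∈ Wᶜ, ¬ (P u (i, false) ↔ P u (i, true)) := by
      intro u hu
      rw [← hT] at hu
      exact hu.2
    refine unbal G hS hcub (G.vx b) par ρ hpar Wᶜ (G.op g') hW' hxZ (fun u => P u (i, false)) ?_
    intro d h1 h2
    have h3 := hact d h1 h2 i false
    have h4 := hall _ h2
    by_cases h5 : (d = par (G.vx d) ∨ G.op d = par (G.vx (G.op d)))
    · have h6 : decide (¬ (d = par (G.vx d) ∨ G.op d = par (G.vx (G.op d)))) = false := by
        simp only [decide_eq_false_iff_not, not_not]; exact h5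
      rw [h6] at h3
      simp only [Bool.xor_false] at h3
      exact ⟨fun _ => h5, fun _ => h3⟩
    · have h6 : decide (¬ (d = par (G.vx d) ∨ G.op d = par (G.vx (G.op d)))) = true := by
        simp only [decide_eq_true_eq]; exact h5
      rw [h6] at h3
      simp only [Bool.xor_true, Bool.not_false] at h3
      constructor
      · intro h7
        exact absurd (h7.symm.trans h3) h4
      · intro h7
        exact absurd h7 h5
  -- the square
  obtain ⟨i0, e0⟩ := j1
  have hgf : g' ≠ f := by rintro rfl; exact hg'W.2 (hXW hfX')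
  have hgf' : g' ≠ G.op f := by
    rintro rfl
    have h9 := hg'W.2
    rw [G.op_op] at h9
    exact h9 (hXW hfX)
  have h2W : G.vx (G.op g') ∈ Wᶜ := hg'W.2
  have hfl : ∀ i e e', (P (G.vx (G.op g')) (i, e) ↔ P (G.vx (G.op g')) (i, e')) := by
    intro i e e'
    have := hflip _ h2W i
    cases e <;> cases e' <;> tauto
  have hsh := hshW _ hg'W.1
  have hE : ∀ i e, ((P (G.vx g') (i, e) ↔ P (G.vx (G.op g')) (i, false)) ↔ (i, e) ≠ (i0, e0)) := by
    intro i e
    rw [← Eg' (i, e)]
    simp only [hσdef, sv, hgf, hgf', if_false]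
    rw [hfl i (xor e (be G X par g')) false]
  have q1 := (hE (i0 + 1) e0).2 (by simp; decide)
  have q2 := (hE (i0 + 1) (!e0)).2 (by simp)
  have q3 := (hE i0 (!e0)).2 (by simp)
  have q4 := hsh i0 e0
  have q5 := hsh i0 (!e0)
  have q6 : (P (G.vx g') (i0, e0) ↔ P (G.vx (G.op g')) (i0, false)) := by
    rw [q4, q1, ← q2, ← q5, q3]
  exact ((hE i0 e0).1 q6) rfl

end

end V11253.SC
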