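import Pool.Agent.V11253.SC.Base

set_option autoImplicit false

namespace V11253.SC

set_option synthInstance.maxSize 4000 in
set_option synthInstance.maxHeartbeats 400000 in
set_option maxRecDepth 100000 in
lemma pet' : ∀ o0 o1 : Fin 3, o0 ≠ o1 → ∀ o2, o1 ≠ o2 → ∀ o3, o2 ≠ o3 → ∀ o4, o3 ≠ o4 → o4 ≠ o0 →
    ∀ s1, s1 ≠ o0 → s1 ≠ o1 → ∀ n1, s1 ≠ n1 → ∀ n4, s1 ≠ n4 → n1 ≠ n4 →
    ∀ s4, s4 ≠ o3 → s4 ≠ o4 → s4 ≠ n4 → ∀ n2, s4 ≠ n2 → n4 ≠ n2 →
    ∀ s2, s2 ≠ o1 → s2 ≠ o2 → s2 ≠ n2 → ∀ n0, s2 ≠ n0 → n2 ≠ n0 →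
    ∀ s0, s0 ≠ o4 → s0 ≠ o0 → s0 ≠ n0 → ∀ n3, s0 ≠ n3 → n0 ≠ n3 →
    ∀ s3, s3 ≠ o2 → s3 ≠ o3 → s3 ≠ n3 → s3 ≠ n1 → n3 ≠ n1 → False := by
  decide

lemma pet (s o n : ZMod 5 → Fin 3)
    (h1 : ∀ i, s i ≠ o i) (h2 : ∀ i, s (i + 1) ≠ o i) (h3 : ∀ i, o (i + 1) ≠ o i)
    (h4 : ∀ i, s i ≠ n i) (h5 : ∀ i, s (i + 2) ≠ n i) (h6 : ∀ i, n (i + 2) ≠ n i) : False := by
  have e1 : (0 : ZMod 5) + 1 = 1 := by decide
  have e2 : (1 : ZMod 5) + 1 = 2 := by decide
  have e3 : (2 : ZMod 5) + 1 = 3 := by decide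
  have e4 : (3 : ZMod 5) + 1 = 4 := by decide
  have e5 : (4 : ZMod 5) + 1 = 0 := by decide
  have f1 : (0 : ZMod 5) + 2 = 2 := by decide
  have f2 : (1 : ZMod 5) + 2 = 3 := by decide
  have f3 : (2 : ZMod 5) + 2 = 4 := by decide
  have f4 : (3 : ZMod 5) + 2 = 0 := by decide
  have f5 : (4 : ZMod 5) + 2 = 1 := by decide
  have a0 := h2 0; have a1 := h2 1; have a2 := h2 2; have a3 := h2 3; have a4 := h2 4
  have b0 := h3 0; have b1 := h3 1; have b2 := h3 2; have b3 := h3 3; have b4 := h3 4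
  have c0 := h5 0; have c1 := h5 1; have c2 := h5 2; have c3 := h5 3; have c4 := h5 4
  have d0 := h6 0; have d1 := h6 1; have d2 := h6 2; have d3 := h6 3; have d4 := h6 4
  rw [e1] at a0 b0
  rw [e2] at a1 b1
  rw [e3] at a2 b2
  rw [e4] at a3 b3
  rw [e5] at a4 b4
  rw [f1] at c0 d0
  rw [f2] at c1 d1
  rw [f3] at c2 d2
  rw [f4] at c3 d3
  rw [f5] at c4 d4
  exact pet' (o 0) (o 1) b0.symm (o 2) b1.symm (o 3) b2.symm (o 4) b3.symm b4.symm
    (s 1) a0 (h1 1) (n 1) (h4 1) (n 4) c4 d4 (s 4) a3 (h1 4) (h4 4) (n 2) c2 d2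
    (s 2) a1 (h1 2) (h4 2) (n 0) c0 d0 (s 0) a4 (h1 0) (h4 0) (n 3) c3 d3.symm.symm
    (s 3) a2 (h1 3) (h4 3) c1 d1

open Classical Relation

variable {V D : Type}

/-- shifts on the two 5-cycles -/
def kk (e : Bool) : ZMod 5 := if e then 2 else 1

lemma kk_ne (e : Bool) : kk e ≠ 0 := by cases e <;> decide

lemma one_leave (G : EG V D) (hC : Conn G) (T : Set V) (hne : T.Nonempty) (hT : T ≠ Set.univ)
    (g : D) (h : ∀ d, Lv G T d → d = g) : ∀ d, Lv G T d ↔ d = g := by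
  have : ∃ d, Lv G T d := by
    by_contra hcon
    push Not at hcon
    exact hT (hC T hne hcon)
  obtain ⟨d0, hd0⟩ := this
  intro d
  refine ⟨h d, ?_⟩
  rintro rfl
  rw [← h d0 hd0]; exact hd0

lemma side_conn (G : EG V D) (hC : Conn G) (W : Set V) (g : D) (hW : ∀ d, Lv G W d ↔ d = g)
    (T : Set V) (hTW : T ⊆ W) (hne : T.Nonempty)
    (hcl : ∀ d, G.vx d ∈ T → G.vx (G.op d) ∈ W → G.vx (G.op d) ∈ T) : T = W := by
  by_contra hcon
  have hg := (hW g).2 rfl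
  have huniv : ∀ T' : Set V, T' ⊆ W → T' ≠ Set.univ := by
    rintro T' h1 rfl
    exact hg.2 (h1 trivial)
  have h1 := one_leave G hC T hne (huniv T hTW) g (by
    intro d hd
    apply (hW d).1
    exact ⟨hTW hd.1, fun h => hd.2 (hcl d hd.1 h)⟩)
  obtain ⟨u, hu, hu'⟩ : ∃ u, u ∈ W ∧ u ∉ T := by
    by_contra h2
    push Not at h2
    exact hcon (Set.Subset.antisymm hTW h2)
  have h2 := one_leave G hC (W \ T) ⟨u, hu, hu'⟩ (huniv _ Set.sdiff_subset) g (by
    intro d hd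
    apply (hW d).1
    refine ⟨hd.1.1, fun h => ?_⟩
    by_cases h3 : G.vx (G.op d) ∈ T
    · have := hcl (G.op d) h3 (by rw [G.op_op]; exact hd.1.1)
      rw [G.op_op] at this
      exact hd.1.2 this
    · exact hd.2 ⟨h, h3⟩)
  exact ((h2 g).2 rfl).1.2 ((h1 g).2 rfl).1

/-- parent function -/
lemma exists_par [Nonempty D] (G : EG V D) (hC : Conn G) (x : V) :
    ∃ (par : V → D) (ρ : V → ℕ), ∀ u, u ≠ x →
      G.vx (par u) = u ∧ ρ (G.vx (G.op (par u))) < ρ u := by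
  let reach : ℕ → Set V := fun n => Nat.rec {x}
    (fun _ S => {u | ∃ d, G.vx d = u ∧ G.vx (G.op d) ∈ S}) n
  have hr0 : reach 0 = {x} := rfl
  have hrs : ∀ n, reach (n + 1) = {u | ∃ d, G.vx d = u ∧ G.vx (G.op d) ∈ reach n} := fun n => rfl
  have hall : ∀ u, ∃ n, u ∈ reach n := by
    have := hC {u | ∃ n, u ∈ reach n} ⟨x, 0, by rw [hr0]; rfl⟩ (by
      rintro d ⟨⟨n, hn⟩, h2⟩
      apply h2
      refine ⟨n + 1, ?_⟩
      rw [hrs]
      exact ⟨G.op d, rfl, by rw [G.op_op]; exact hn⟩)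
    intro u
    have hu : u ∈ {u | ∃ n, u ∈ reach n} := by rw [this]; trivial
    exact hu
  have hmin : ∀ u, ∃ n, u ∈ reach n ∧ ∀ m, u ∈ reach m → n ≤ m := by
    intro u
    obtain ⟨n, hn, hn'⟩ := WellFounded.has_min (wellFounded_lt (α := ℕ)) {n | u ∈ reach n} (hall u)
    exact ⟨n, hn, fun m hm => not_lt.1 (hn' m hm)⟩
  choose ρ hρ1 hρ2 using hmin
  have hD : ∀ u, ∃ d : D, u ≠ x → G.vx d = u ∧ ρ (G.vx (G.op d)) < ρ u := by
    intro u
    by_cases hu : u = x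
    · exact ⟨Classical.arbitrary D, fun h => absurd hu h⟩
    · have h1 := hρ1 u
      rcases h2 : ρ u with _ | n
      · rw [h2, hr0] at h1
        exact absurd h1 hu
      · rw [h2, hrs] at h1
        obtain ⟨d, hd1, hd2⟩ := h1
        exact ⟨d, fun _ => ⟨hd1, Nat.lt_succ_of_le (hρ2 _ _ hd2)⟩⟩
  choose par hpar using hD
  exact ⟨par, ρ, hpar⟩

/-- The voltage is unbalanced on every side avoiding the root. -/
lemma unbal [Fintype V] [Fintype D] (G : EG V D) (hS : G.Simple) (hcub : G.Cubic) (x : V)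
    (par : V → D) (ρ : V → ℕ)
    (hpar : ∀ u, u ≠ x → G.vx (par u) = u ∧ ρ (G.vx (G.op (par u))) < ρ u)
    (Z : Set V) (g : D) (hg : ∀ d, Lv G Z d ↔ d = g) (hx : x ∉ Z) (p : V → Prop)
    (hp : ∀ d, G.vx d ∈ Z → G.vx (G.op d) ∈ Z → ((p (G.vx d) ↔ p (G.vx (G.op d))) ↔
      (d = par (G.vx d) ∨ G.op d = par (G.vx (G.op d))))) : False := by
  have hz := (hg g).2 rfl
  have hne : ∀ u ∈ Z, u ≠ x := fun u hu h => hx (h ▸ hu)
  have h1 : ∀ n, ∀ u ∈ Z, ρ u = n → (p u ↔ p (G.vx g)) := by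
    intro n
    induction n using Nat.strong_induction_on with
    | _ n ih =>
      intro u hu hn
      obtain ⟨q1, q2⟩ := hpar u (hne u hu)
      by_cases hpg : par u = g
      · rw [← hpg, q1]
      · have hin : G.vx (G.op (par u)) ∈ Z := by
          by_contra hcon
          exact hpg ((hg _).1 ⟨by rw [q1]; exact hu, hcon⟩)
        have h2 := (hp (par u) (by rw [q1]; exact hu) hin).2 (Or.inl (by rw [q1]))
        rw [q1] at h2
        rw [h2]
        exact ih _ (by rw [← hn]; exact q2) _ hin rfl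
  have h2 : ∀ d, G.vx d ∈ Z → d ≠ g → (d = par (G.vx d) ∨ G.op d = par (G.vx (G.op d))) ∧
      G.vx (G.op d) ∈ Z := by
    intro d hd hdg
    have hin : G.vx (G.op d) ∈ Z := by
      by_contra hcon
      exact hdg ((hg _).1 ⟨hd, hcon⟩)
    exact ⟨(hp d hd hin).1 ((h1 _ _ hd rfl).trans (h1 _ _ hin rfl).symm), hin⟩
  let ZF : Finset V := Finset.univ.filter (fun u => u ∈ Z)
  have h3 : (Finset.univ.filter (fun d => G.vx d ∈ Z)).card = ZF.card * 3 := by
    rw [Finset.card_eq_sum_card_fiberwise (f := G.vx) (t := ZF)]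
    · rw [Finset.sum_congr rfl (g := fun _ => 3), Finset.sum_const, smul_eq_mul]
      intro u hu
      rw [← hcub u, Nat.card_eq_fintype_card, Fintype.card_subtype]
      congr 1
      ext d
      simp only [Finset.mem_filter, Finset.mem_univ, true_and]
      simp only [ZF, Finset.mem_filter, Finset.mem_univ, true_and] at hu
      constructor
      · exact fun h => h.2
      · intro h; exact ⟨by rw [h]; exact hu, h⟩
    · intro d hd
      simpa [ZF] using hd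
  have h4 : Finset.univ.filter (fun d => G.vx d ∈ Z) ⊆
      insert g (ZF.image par ∪ ZF.image (fun u => G.op (par u))) := by
    intro d hd
    simp only [Finset.mem_filter, Finset.mem_univ, true_and] at hd
    by_cases hdg : d = g
    · simp [hdg]
    · obtain ⟨h5, h6⟩ := h2 d hd hdg
      simp only [Finset.mem_insert, Finset.mem_union, Finset.mem_image]
      right
      rcases h5 with h5 | h5
      · left; exact ⟨_, by simpa [ZF] using hd, h5.symm⟩
      · right; exact ⟨_, by simpa [ZF] using h6, by rw [← h5, G.op_op]⟩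
  have h5 := Finset.card_le_card h4
  have h6 := (Finset.card_insert_le g (ZF.image par ∪ ZF.image (fun u => G.op (par u))))
  have h7 := Finset.card_union_le (ZF.image par) (ZF.image (fun u => G.op (par u)))
  have h8 : (ZF.image par).card ≤ ZF.card := Finset.card_image_le
  have h9 : (ZF.image (fun u => G.op (par u))).card ≤ ZF.card := Finset.card_image_le
  have h10 : ZF.card ≤ 1 := by omega
  rw [Finset.card_le_one] at h10
  -- another end at the vertex of `g`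
  have h11 : ∃ d, G.vx d = G.vx g ∧ d ≠ g := by
    by_contra hcon
    push Not at hcon
    have hc := hcub (G.vx g)
    have : Nat.card {d // G.vx d = G.vx g} ≤ 1 := by
      rw [Nat.card_eq_fintype_card]
      apply Fintype.card_le_one_iff.2
      rintro ⟨a, ha⟩ ⟨b, hb⟩
      exact Subtype.ext ((hcon a ha).trans (hcon b hb).symm)
    omega
  obtain ⟨d, hd1, hd2⟩ := h11
  have hdZ : G.vx d ∈ Z := by rw [hd1]; exact hz.1
  obtain ⟨_, h12⟩ := h2 d hdZ hd2
  exact hS.1 d (h10 _ (by simpa [ZF] using h12) _ (by simpa [ZF] using hdZ))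

end V11253.SC
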